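import Mathlib

/-!
# Localizations of Green functors at non-top levels need not be flat

For every finite group `G` and every proper subgroup `H` there are a commutative Green functor `R`
for `G` and an element `b ∈ R(G/H)` such that `R[b⁻¹]` is not flat over `R`. One can take the
constant Green functor `R = ℤ` (`R(X) = Map_G(X, ℤ)`) and `b = 0`. The localization is the quotient
of `R` by the images of the transfers from `G/H × X` to `X`, its value at `G/G` is `ℤ/n` with
`n = [G : H] > 1`, and multiplication by `n` is injective on `R` but zero on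
`(R[b⁻¹] ⊠_R R)(G/G) = R[b⁻¹](G/G) ≠ 0`.

Mackey functors are described by their values on all finite `G`-sets (Dress).
-/

set_option autoImplicit false
set_option linter.all false

namespace Pool.Agent.Results.MP_196a0c_al.LocalizationNotFlat

/-- Finite `G`-sets. -/
structure GSet (G : Type) [Group G] where
  /-- the underlying set -/
  carrier : Type
  [fin : Finite carrier]
  [act : MulAction G carrier]

attribute [instance] GSet.fin GSet.act

/-- `G`-maps between finite `G`-sets. -/
@[ext] structure GMap {G : Type} [Group G] (X Y : GSet G) where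
  /-- the map -/
  toFun : X.carrier → Y.carrier
  equi : ∀ (g : G) (x : X.carrier), toFun (g • x) = g • toFun x

section defs

variable {G : Type} [Group G]

/-- The orbit `G/H`. -/
abbrev orb [Finite G] (H : Subgroup G) : GSet G := ⟨G ⧸ H⟩

/-- The identity map. -/
def GMap.id (X : GSet G) : GMap X X := ⟨fun x => x, fun _ _ => rfl⟩

/-- The composite of `f : X → Y` and `g : Y → Z`. -/
def GMap.comp {X Y Z : GSet G} (g : GMap Y Z) (f : GMap X Y) : GMap X Z :=
  ⟨fun x => g.toFun (f.toFun x), fun a x => by rw [f.equi, g.equi]⟩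

/-- The square with the maps `p : P → X`, `q : P → Y'`, `f : X → Y`, `g : Y' → Y` is a pullback. -/
def IsPB {P X Y' Y : GSet G} (p : GMap P X) (q : GMap P Y') (f : GMap X Y) (g : GMap Y' Y) :
    Prop :=
  (∀ z, f.toFun (p.toFun z) = g.toFun (q.toFun z)) ∧
    ∀ x y, f.toFun x = g.toFun y → ∃! z, p.toFun z = x ∧ q.toFun z = y

/-- `Z` is the disjoint union of `X` and `Y` by the maps `i` and `j`. -/
def IsSum {X Y Z : GSet G} (i : GMap X Z) (j : GMap Y Z) : Prop :=
  Function.Bijective (Sum.elim i.toFun j.toFun)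

end defs

/-- A Mackey functor for `G` (on finite `G`-sets): restrictions `f^*`, transfers `f_*`, the Mackey
(base change) axiom and additivity. -/
structure Mackey (G : Type) [Group G] where
  /-- the values -/
  obj : GSet G → Type
  [grp : ∀ X, AddCommGroup (obj X)]
  /-- restriction -/
  res : ∀ {X Y : GSet G}, GMap X Y → obj Y → obj X
  /-- transfer -/
  tr : ∀ {X Y : GSet G}, GMap X Y → obj X → obj Y
  res_add : ∀ {X Y : GSet G} (f : GMap X Y) (a b : obj Y), res f (a + b) = res f a + res f b
  tr_add : ∀ {X Y : GSet G} (f : GMap X Y) (a b : obj X), tr f (a + b) = tr f a + tr f b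
  res_id : ∀ (X : GSet G) (a : obj X), res (GMap.id X) a = a
  res_comp : ∀ {X Y Z : GSet G} (f : GMap X Y) (g : GMap Y Z) (a : obj Z),
    res (g.comp f) a = res f (res g a)
  tr_id : ∀ (X : GSet G) (a : obj X), tr (GMap.id X) a = a
  tr_comp : ∀ {X Y Z : GSet G} (f : GMap X Y) (g : GMap Y Z) (a : obj X),
    tr (g.comp f) a = tr g (tr f a)
  base_change : ∀ {P X Y' Y : GSet G} (p : GMap P X) (q : GMap P Y') (f : GMap X Y)
    (g : GMap Y' Y), IsPB p q f g → ∀ a : obj X, res g (tr f a) = tr q (res p a)
  additive : ∀ {X Y Z : GSet G} (i : GMap X Z) (j : GMap Y Z), IsSum i j →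
    Function.Bijective (fun a : obj Z => (res i a, res j a))

attribute [instance] Mackey.grp

/-- A commutative Green functor for `G`: a Mackey functor whose values are commutative rings, such
that the restrictions are ring homomorphisms and Frobenius reciprocity holds. -/
structure Green (G : Type) [Group G] where
  /-- the values -/
  obj : GSet G → Type
  [ring : ∀ X, CommRing (obj X)]
  /-- restriction -/
  res : ∀ {X Y : GSet G}, GMap X Y → obj Y → obj X
  /-- transfer -/
  tr : ∀ {X Y : GSet G}, GMap X Y → obj X → obj Y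
  res_add : ∀ {X Y : GSet G} (f : GMap X Y) (a b : obj Y), res f (a + b) = res f a + res f b
  tr_add : ∀ {X Y : GSet G} (f : GMap X Y) (a b : obj X), tr f (a + b) = tr f a + tr f b
  res_id : ∀ (X : GSet G) (a : obj X), res (GMap.id X) a = a
  res_comp : ∀ {X Y Z : GSet G} (f : GMap X Y) (g : GMap Y Z) (a : obj Z),
    res (g.comp f) a = res f (res g a)
  tr_id : ∀ (X : GSet G) (a : obj X), tr (GMap.id X) a = a
  tr_comp : ∀ {X Y Z : GSet G} (f : GMap X Y) (g : GMap Y Z) (a : obj X),
    tr (g.comp f) a = tr g (tr f a)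
  base_change : ∀ {P X Y' Y : GSet G} (p : GMap P X) (q : GMap P Y') (f : GMap X Y)
    (g : GMap Y' Y), IsPB p q f g → ∀ a : obj X, res g (tr f a) = tr q (res p a)
  additive : ∀ {X Y Z : GSet G} (i : GMap X Z) (j : GMap Y Z), IsSum i j →
    Function.Bijective (fun a : obj Z => (res i a, res j a))
  res_one : ∀ {X Y : GSet G} (f : GMap X Y), res f 1 = 1
  res_mul : ∀ {X Y : GSet G} (f : GMap X Y) (a b : obj Y), res f (a * b) = res f a * res f b
  frobenius : ∀ {X Y : GSet G} (f : GMap X Y) (a : obj X) (b : obj Y),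
    tr f (a * res f b) = tr f a * b

attribute [instance] Green.ring

/-- The compatibility of `R(X)`-module structures on the values `M(X)` of a Mackey functor `M` with
restrictions and transfers. -/
structure IsGMod {G : Type} [Group G] (R : Green G) (M : Mackey G)
    [∀ X, Module (R.obj X) (M.obj X)] : Prop where
  res_smul : ∀ {X Y : GSet G} (f : GMap X Y) (r : R.obj Y) (m : M.obj Y),
    M.res f (r • m) = R.res f r • M.res f m
  tr_res_smul : ∀ {X Y : GSet G} (f : GMap X Y) (r : R.obj Y) (m : M.obj X),
    M.tr f (R.res f r • m) = r • M.tr f m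
  tr_smul_res : ∀ {X Y : GSet G} (f : GMap X Y) (r : R.obj X) (m : M.obj Y),
    M.tr f (r • M.res f m) = R.tr f r • m

/-- Modules over a Green functor. -/
structure GMod {G : Type} [Group G] (R : Green G) extends Mackey G where
  [mod : ∀ X, Module (R.obj X) (obj X)]
  compat : IsGMod R toMackey

attribute [instance] GMod.mod

section homs

variable {G : Type} [Group G]

/-- Morphisms of Mackey functors. -/
@[ext] structure MackeyHom (M N : Mackey G) where
  /-- the components -/
  app : ∀ X, M.obj X → N.obj X
  app_add : ∀ (X : GSet G) (a b : M.obj X), app X (a + b) = app X a + app X b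
  app_res : ∀ {X Y : GSet G} (f : GMap X Y) (a : M.obj Y), app X (M.res f a) = N.res f (app Y a)
  app_tr : ∀ {X Y : GSet G} (f : GMap X Y) (a : M.obj X), app Y (M.tr f a) = N.tr f (app X a)

/-- Morphisms of Green functors. -/
@[ext] structure GreenHom (R S : Green G) where
  /-- the components -/
  app : ∀ X, R.obj X →+* S.obj X
  app_res : ∀ {X Y : GSet G} (f : GMap X Y) (a : R.obj Y), app X (R.res f a) = S.res f (app Y a)
  app_tr : ∀ {X Y : GSet G} (f : GMap X Y) (a : R.obj X), app Y (R.tr f a) = S.tr f (app X a)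

/-- Morphisms of modules over a Green functor. -/
structure GModHom {R : Green G} (M N : GMod R) extends MackeyHom M.toMackey N.toMackey where
  app_smul : ∀ (X : GSet G) (r : R.obj X) (m : M.obj X), app X (r • m) = r • app X m

/-- The underlying Mackey functor of a Green functor. -/
@[reducible] def Green.und (S : Green G) : Mackey G where
  obj := S.obj
  grp := fun _ => inferInstance
  res := S.res
  tr := S.tr
  res_add := S.res_add
  tr_add := S.tr_add
  res_id := S.res_id
  res_comp := S.res_comp
  tr_id := S.tr_id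
  tr_comp := S.tr_comp
  base_change := S.base_change
  additive := S.additive

/-- An algebra `R → S` as a module over `R`. -/
@[reducible] def GMod.ofHom {R S : Green G} (φ : GreenHom R S) : GMod R where
  toMackey := S.und
  mod := fun X => (φ.app X).toModule
  compat := by
    refine @IsGMod.mk _ _ R S.und (fun X => (φ.app X).toModule) ?_ ?_ ?_
    · intro X Y f r m
      change S.res f (φ.app Y r * m) = φ.app X (R.res f r) * S.res f m
      rw [S.res_mul, φ.app_res]
    · intro X Y f r m
      change S.tr f (φ.app X (R.res f r) * m) = φ.app Y r * S.tr f m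
      rw [φ.app_res, mul_comm, S.frobenius, mul_comm]
    · intro X Y f r m
      change S.tr f (φ.app X r * S.res f m) = φ.app Y (R.tr f r) * m
      rw [S.frobenius, φ.app_tr]

/-- The map `R → S` exhibits `S` as the localization `R[b⁻¹]`: it is the initial commutative
`R`-algebra in which the image of `b ∈ R(X)` is a unit. -/
def IsLocalizationAt {R S : Green G} {X : GSet G} (b : R.obj X) (φ : GreenHom R S) : Prop :=
  IsUnit (φ.app X b) ∧ ∀ (T : Green G) (ψ : GreenHom R T), IsUnit (ψ.app X b) →
    ∃! χ : GreenHom S T, ∀ (Y : GSet G) (a : R.obj Y), χ.app Y (φ.app Y a) = ψ.app Y a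

/-- `R`-balanced Dress pairings `M × N → P`. -/
structure Pairing {R : Green G} (M N : GMod R) (P : Mackey G) where
  /-- the components -/
  map : ∀ X, M.obj X → N.obj X → P.obj X
  add_left : ∀ (X : GSet G) (m m' : M.obj X) (n : N.obj X),
    map X (m + m') n = map X m n + map X m' n
  add_right : ∀ (X : GSet G) (m : M.obj X) (n n' : N.obj X),
    map X m (n + n') = map X m n + map X m n'
  map_res : ∀ {X Y : GSet G} (f : GMap X Y) (m : M.obj Y) (n : N.obj Y),
    P.res f (map Y m n) = map X (M.res f m) (N.res f n)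
  map_tr_left : ∀ {X Y : GSet G} (f : GMap X Y) (m : M.obj X) (n : N.obj Y),
    map Y (M.tr f m) n = P.tr f (map X m (N.res f n))
  map_tr_right : ∀ {X Y : GSet G} (f : GMap X Y) (m : M.obj Y) (n : N.obj X),
    map Y m (N.tr f n) = P.tr f (map X (M.res f m) n)
  balanced : ∀ (X : GSet G) (r : R.obj X) (m : M.obj X) (n : N.obj X),
    map X (r • m) n = map X m (r • n)

/-- The pairing `M × N → P` exhibits `P` as the box product `M ⊠_R N`: it is universal. -/
def IsBox {R : Green G} {M N : GMod R} {P : Mackey G} (θ : Pairing M N P) : Prop :=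
  ∀ (Q : Mackey G) (η : Pairing M N Q),
    ∃! χ : MackeyHom P Q, ∀ (X : GSet G) (m : M.obj X) (n : N.obj X),
      χ.app X (θ.map X m n) = η.map X m n

/-- Flat modules over a Green functor: for every injective map `i : N' → N` of `R`-modules the map
`χ : M ⊠_R N' → M ⊠_R N` induced by `i` is injective. (The functor `M ⊠_R (-)` is always right
exact.) -/
def Flat {R : Green G} (M : GMod R) : Prop :=
  ∀ (N' N : GMod R) (i : GModHom N' N), (∀ X, Function.Injective (i.app X)) →
    ∀ (P' P : Mackey G) (θ' : Pairing M N' P') (θ : Pairing M N P), IsBox θ' → IsBox θ →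
      ∀ χ : MackeyHom P' P, (∀ (X : GSet G) (m : M.obj X) (n : N'.obj X),
        χ.app X (θ'.map X m n) = θ.map X m (i.app X n)) → ∀ X, Function.Injective (χ.app X)

end homs

/-! ### The quotient by transfers -/

section quot

variable {G : Type} [Group G] (R : Green G) (A : GSet G)

instance {X Y : GSet G} : CoeFun (GMap X Y) (fun _ => X.carrier → Y.carrier) := ⟨GMap.toFun⟩

instance : CoeSort (GSet G) Type := ⟨GSet.carrier⟩

theorem Green.tr_zero {X Y : GSet G} (f : GMap X Y) : R.tr f 0 = 0 := by
  have h := R.tr_add f 0 0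
  rw [add_zero] at h
  exact left_eq_add.1 h

theorem Green.tr_neg {X Y : GSet G} (f : GMap X Y) (a : R.obj X) : R.tr f (-a) = - R.tr f a := by
  rw [eq_neg_iff_add_eq_zero, ← R.tr_add, neg_add_cancel, R.tr_zero]

theorem Green.tr_sub {X Y : GSet G} (f : GMap X Y) (a b : R.obj X) :
    R.tr f (a - b) = R.tr f a - R.tr f b := by
  rw [sub_eq_add_neg, sub_eq_add_neg, R.tr_add, R.tr_neg]

/-- restriction as a ring homomorphism -/
def Green.resHom {X Y : GSet G} (f : GMap X Y) : R.obj Y →+* R.obj X :=
  RingHom.mk' ⟨⟨R.res f, R.res_one f⟩, R.res_mul f⟩ (R.res_add f)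

/-- products of `G`-sets -/
abbrev pd (X : GSet G) : GSet G := ⟨A × X⟩

/-- the projection -/
def pr (X : GSet G) : GMap (pd A X) X where
  toFun z := z.2
  equi _ _ := rfl

/-- the first projection -/
def pa (X : GSet G) : GMap (pd A X) A where
  toFun z := z.1
  equi _ _ := rfl

/-- functoriality of products -/
def pm {X Y : GSet G} (f : GMap X Y) : GMap (pd A X) (pd A Y) where
  toFun z := (z.1, f z.2)
  equi g z := by
    change (g • z.1, f (g • z.2)) = (g • z.1, g • f z.2)
    rw [f.equi]

theorem pb_pr {X Y : GSet G} (f : GMap X Y) : IsPB (pm A f) (pr A X) (pr A Y) f := by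
  refine ⟨fun z => rfl, ?_⟩
  rintro ⟨a, y⟩ x h
  refine ⟨(a, x), ⟨?_, rfl⟩, ?_⟩
  · change (a, f x) = (a, y)
    have h' : y = f x := h
    rw [h']
  · rintro ⟨a', x'⟩ ⟨h1, h2⟩
    have h3 : (a', f x') = (a, y) := h1
    have h4 : x' = x := h2
    rw [h4, (Prod.mk.inj h3).1]

/-- the ideal of transfers from `A × X` -/
def tI (X : GSet G) : Ideal (R.obj X) where
  carrier := Set.range (R.tr (pr A X))
  add_mem' := by
    rintro _ _ ⟨a, rfl⟩ ⟨b, rfl⟩
    exact ⟨a + b, R.tr_add _ _ _⟩
  zero_mem' := ⟨0, R.tr_zero _⟩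
  smul_mem' := by
    rintro c _ ⟨a, rfl⟩
    exact ⟨a * R.res (pr A X) c, by rw [R.frobenius, smul_eq_mul, mul_comm]⟩

theorem mem_tI {X : GSet G} (r : R.obj X) : r ∈ tI R A X ↔ ∃ s, R.tr (pr A X) s = r := Iff.rfl

theorem res_mem {X Y : GSet G} (f : GMap X Y) {r : R.obj Y} (hr : r ∈ tI R A Y) :
    R.res f r ∈ tI R A X := by
  obtain ⟨s, rfl⟩ := hr
  exact ⟨R.res (pm A f) s, (R.base_change _ _ _ _ (pb_pr A f) s).symm⟩

theorem tr_mem {X Y : GSet G} (f : GMap X Y) {r : R.obj X} (hr : r ∈ tI R A X) :
    R.tr f r ∈ tI R A Y := by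
  obtain ⟨s, rfl⟩ := hr
  refine ⟨R.tr (pm A f) s, ?_⟩
  rw [← R.tr_comp, ← R.tr_comp]
  rfl

/-- the transfer on the quotient -/
noncomputable def qtr {X Y : GSet G} (f : GMap X Y) :
    (R.obj X ⧸ tI R A X) → (R.obj Y ⧸ tI R A Y) :=
  fun x => Ideal.Quotient.mk _ (R.tr f (Function.surjInv Ideal.Quotient.mk_surjective x))

theorem qtr_mk {X Y : GSet G} (f : GMap X Y) (a : R.obj X) :
    qtr R A f (Ideal.Quotient.mk _ a) = Ideal.Quotient.mk _ (R.tr f a) := by
  have hs : ∀ r : R.obj X ⧸ tI R A X, Ideal.Quotient.mk (tI R A X)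
      (Function.surjInv Ideal.Quotient.mk_surjective r) = r := Function.surjInv_eq _
  change Ideal.Quotient.mk _ (R.tr f (Function.surjInv Ideal.Quotient.mk_surjective _)) = _
  rw [Ideal.Quotient.eq, ← R.tr_sub]
  apply tr_mem
  rw [← Ideal.Quotient.eq, hs]

/-- the restriction on the quotient -/
noncomputable def qres {X Y : GSet G} (f : GMap X Y) :
    (R.obj Y ⧸ tI R A Y) →+* (R.obj X ⧸ tI R A X) :=
  Ideal.Quotient.lift _ ((Ideal.Quotient.mk _).comp (R.resHom f)) (by
    intro a ha
    rw [RingHom.comp_apply, Ideal.Quotient.eq_zero_iff_mem]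
    exact res_mem R A f ha)

theorem qres_mk {X Y : GSet G} (f : GMap X Y) (a : R.obj Y) :
    qres R A f (Ideal.Quotient.mk _ a) = Ideal.Quotient.mk _ (R.res f a) := rfl

theorem sum_pm {X Y Z : GSet G} (i : GMap X Z) (j : GMap Y Z) (h : IsSum i j) :
    IsSum (pm A i) (pm A j) := by
  constructor
  · rintro (⟨a, x⟩ | ⟨a, x⟩) (⟨b, y⟩ | ⟨b, y⟩) hxy
    · have h1 : (a, i x) = (b, i y) := hxy
      have h2 : (Sum.elim i j : X ⊕ Y → Z) (Sum.inl x) = Sum.elim i j (Sum.inl y) :=
        (Prod.mk.inj h1).2
      have h3 := Sum.inl.inj (h.1 h2)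
      rw [h3, (Prod.mk.inj h1).1]
    · have h1 : (a, i x) = (b, j y) := hxy
      have h2 : (Sum.elim i j : X ⊕ Y → Z) (Sum.inl x) = Sum.elim i j (Sum.inr y) :=
        (Prod.mk.inj h1).2
      exact absurd (h.1 h2) (by simp)
    · have h1 : (a, j x) = (b, i y) := hxy
      have h2 : (Sum.elim i j : X ⊕ Y → Z) (Sum.inr x) = Sum.elim i j (Sum.inl y) :=
        (Prod.mk.inj h1).2
      exact absurd (h.1 h2) (by simp)
    · have h1 : (a, j x) = (b, j y) := hxy
      have h2 : (Sum.elim i j : X ⊕ Y → Z) (Sum.inr x) = Sum.elim i j (Sum.inr y) :=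
        (Prod.mk.inj h1).2
      have h3 := Sum.inr.inj (h.1 h2)
      rw [h3, (Prod.mk.inj h1).1]
  · rintro ⟨a, z⟩
    obtain ⟨x | x, hx⟩ := h.2 z
    · refine ⟨Sum.inl (a, x), ?_⟩
      change (a, i x) = (a, z)
      have : i x = z := hx
      rw [this]
    · refine ⟨Sum.inr (a, x), ?_⟩
      change (a, j x) = (a, z)
      have : j x = z := hx
      rw [this]

/-- the quotient Green functor -/
noncomputable def QG : Green G where
  obj X := R.obj X ⧸ tI R A X
  ring := fun X => inferInstance
  res := fun f => qres R A f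
  tr := fun f => qtr R A f
  res_one := fun f => map_one _
  res_mul := fun f a b => map_mul _ a b
  res_add := fun f a b => map_add _ a b
  tr_add := fun f a b => by
    obtain ⟨a, rfl⟩ := Ideal.Quotient.mk_surjective a
    obtain ⟨b, rfl⟩ := Ideal.Quotient.mk_surjective b
    rw [← map_add, qtr_mk, qtr_mk, qtr_mk, R.tr_add, map_add]
  res_id := fun X a => by
    obtain ⟨a, rfl⟩ := Ideal.Quotient.mk_surjective a
    rw [qres_mk, R.res_id]
  res_comp := fun f g a => by
    obtain ⟨a, rfl⟩ := Ideal.Quotient.mk_surjective a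
    rw [qres_mk, qres_mk, qres_mk, R.res_comp]
  tr_id := fun X a => by
    obtain ⟨a, rfl⟩ := Ideal.Quotient.mk_surjective a
    rw [qtr_mk, R.tr_id]
  tr_comp := fun f g a => by
    obtain ⟨a, rfl⟩ := Ideal.Quotient.mk_surjective a
    rw [qtr_mk, qtr_mk, qtr_mk, R.tr_comp]
  base_change := fun p q f g h a => by
    obtain ⟨a, rfl⟩ := Ideal.Quotient.mk_surjective a
    rw [qtr_mk, qres_mk, qres_mk, qtr_mk, R.base_change p q f g h]
  additive := fun {X Y Z} i j h => by
    have hb := R.additive i j h
    have hb2 := R.additive (pm A i) (pm A j) (sum_pm A i j h)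
    constructor
    · have key : ∀ a : R.obj Z, R.res i a ∈ tI R A X → R.res j a ∈ tI R A Y → a ∈ tI R A Z := by
        rintro a ⟨s, hs⟩ ⟨t, ht⟩
        obtain ⟨c, hc⟩ := hb2.2 (s, t)
        have hc1 : R.res (pm A i) c = s := congrArg Prod.fst hc
        have hc2 : R.res (pm A j) c = t := congrArg Prod.snd hc
        refine ⟨c, ?_⟩
        apply hb.1
        change (_, _) = (_, _)
        rw [R.base_change _ _ _ _ (pb_pr A i) c, R.base_change _ _ _ _ (pb_pr A j) c, hc1, hc2,
          hs, ht]
      intro a b hab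
      obtain ⟨a, rfl⟩ := Ideal.Quotient.mk_surjective a
      obtain ⟨b, rfl⟩ := Ideal.Quotient.mk_surjective b
      have h1 := congrArg Prod.fst hab
      have h2 := congrArg Prod.snd hab
      change qres R A i _ = qres R A i _ at h1
      change qres R A j _ = qres R A j _ at h2
      rw [qres_mk, qres_mk, Ideal.Quotient.eq] at h1 h2
      have h1' : R.resHom i a - R.resHom i b ∈ tI R A X := h1
      have h2' : R.resHom j a - R.resHom j b ∈ tI R A Y := h2
      rw [← map_sub] at h1' h2'
      exact Ideal.Quotient.eq.2 (key _ h1' h2')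
    · rintro ⟨a, b⟩
      obtain ⟨a, rfl⟩ := Ideal.Quotient.mk_surjective a
      obtain ⟨b, rfl⟩ := Ideal.Quotient.mk_surjective b
      obtain ⟨c, hc⟩ := hb.2 (a, b)
      have hc1 : R.res i c = a := congrArg Prod.fst hc
      have hc2 : R.res j c = b := congrArg Prod.snd hc
      refine ⟨Ideal.Quotient.mk _ c, ?_⟩
      change (qres R A i _, qres R A j _) = _
      rw [qres_mk, qres_mk, hc1, hc2]
  frobenius := fun f a b => by
    obtain ⟨a, rfl⟩ := Ideal.Quotient.mk_surjective a
    obtain ⟨b, rfl⟩ := Ideal.Quotient.mk_surjective b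
    rw [qres_mk, ← map_mul, qtr_mk, qtr_mk, R.frobenius, map_mul]

/-- the quotient map -/
noncomputable def qmap : GreenHom R (QG R A) where
  app X := Ideal.Quotient.mk (tI R A X)
  app_res _ _ := rfl
  app_tr f a := (qtr_mk R A f a).symm

theorem loc_zero : IsLocalizationAt (0 : R.obj A) (qmap R A) := by
  have h0 : ∀ (T : Green G) (ψ : GreenHom R T), IsUnit (ψ.app A 0) → ∀ (X : GSet G),
      ∀ r ∈ tI R A X, ψ.app X r = 0 := by
    rintro T ψ hu X _ ⟨s, rfl⟩
    rw [ψ.app_tr]
    have h1 : (1 : T.obj A) = 0 := by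
      rw [map_zero, isUnit_zero_iff] at hu
      exact hu.symm
    have h2 : (1 : T.obj (pd A X)) = 0 := by
      rw [← T.res_one (pa A X), h1]
      exact map_zero (T.resHom (pa A X))
    have h3 : ψ.app (pd A X) s = 0 := by
      rw [← mul_one (ψ.app (pd A X) s), h2, mul_zero]
    rw [h3, T.tr_zero]
  constructor
  · -- the unit: `1` is a transfer at `A`
    have hmem : (1 : R.obj A) ∈ tI R A A := by
      -- the diagonal
      let δ : GMap A (pd A A) := { toFun := fun a => (a, a), equi := fun _ _ => rfl }
      refine ⟨R.tr δ 1, ?_⟩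
      rw [← R.tr_comp]
      exact R.tr_id A 1
    have h1 : ((qmap R A).app A 0) = 0 := map_zero _
    have h2 : (1 : (QG R A).obj A) = 0 := Ideal.Quotient.eq_zero_iff_mem.2 hmem
    rw [h1, isUnit_zero_iff]
    exact h2.symm
  · intro T ψ hu
    have hk := h0 T ψ hu
    refine ⟨{ app := fun X => Ideal.Quotient.lift (tI R A X) (ψ.app X) (hk X)
              app_res := ?_, app_tr := ?_ }, ?_, ?_⟩
    · intro X Y f a
      obtain ⟨a, rfl⟩ := Ideal.Quotient.mk_surjective a
      exact ψ.app_res f a
    · intro X Y f a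
      obtain ⟨a, rfl⟩ := Ideal.Quotient.mk_surjective a
      change Ideal.Quotient.lift (tI R A Y) (ψ.app Y) (hk Y) (qtr R A f (Ideal.Quotient.mk _ a)) = _
      rw [qtr_mk]
      exact ψ.app_tr f a
    · intro Y a
      rfl
    · intro χ hχ
      apply GreenHom.ext
      funext X
      apply RingHom.ext
      intro a
      obtain ⟨a, rfl⟩ := Ideal.Quotient.mk_surjective a
      exact hχ X a

end quot

/-! ### The box product with the Green functor itself -/

section self

variable {G : Type} [Group G] {R : Green G}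

/-- the identity -/
@[reducible] def idHom (R : Green G) : GreenHom R R where
  app X := RingHom.id _
  app_res _ _ := rfl
  app_tr _ _ := rfl

/-- `R` as a module over itself -/
abbrev selfMod (R : Green G) : GMod R := GMod.ofHom (idHom R)

/-- the action `M × R → M` -/
def actPairing (M : GMod R) : Pairing M (selfMod R) M.toMackey where
  map := fun X m (r : R.obj X) => r • m
  add_left := fun X m m' n => smul_add (n : R.obj X) m m'
  add_right := fun X m n n' => add_smul (n : R.obj X) n' m
  map_res := fun f m n => M.compat.res_smul f n m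
  map_tr_left := fun f m n => (M.compat.tr_res_smul f n m).symm
  map_tr_right := fun f m n => (M.compat.tr_smul_res f n m).symm
  balanced := fun X r m n => by
    change (n : R.obj X) • (r • m) = ((r * n : R.obj X)) • m
    rw [smul_smul, mul_comm]

theorem actPairing_map (M : GMod R) (X : GSet G) (m : M.obj X) (r : R.obj X) :
    (actPairing M).map X m r = r • m := rfl

theorem isBox_act (M : GMod R) : IsBox (actPairing M) := by
  intro Q η
  have hη : ∀ (X : GSet G) (m : M.obj X) (r : R.obj X),
      η.map X (r • m) (1 : R.obj X) = η.map X m r := by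
    intro X m r
    rw [η.balanced]
    congr 1
    change r * 1 = r
    exact mul_one r
  refine ⟨{ app := fun X m => η.map X m (1 : R.obj X), app_add := ?_, app_res := ?_,
            app_tr := ?_ }, ?_, ?_⟩
  · intro X a b
    exact η.add_left X a b _
  · intro X Y f a
    change η.map X (M.res f a) (1 : R.obj X) = Q.res f (η.map Y a (1 : R.obj Y))
    rw [η.map_res]
    congr 1
    exact (R.res_one f).symm
  · intro X Y f a
    change η.map Y (M.tr f a) (1 : R.obj Y) = Q.tr f (η.map X a (1 : R.obj X))
    rw [η.map_tr_left]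
    congr 2
    exact R.res_one f
  · intro X m r
    exact hη X m r
  · intro χ hχ
    apply MackeyHom.ext
    funext X m
    have h1 := hχ X m (1 : R.obj X)
    rw [actPairing_map, one_smul] at h1
    exact h1

theorem Mackey.tr_zero (M : Mackey G) {X Y : GSet G} (f : GMap X Y) : M.tr f 0 = 0 := by
  have h := M.tr_add f 0 0
  rw [add_zero] at h
  exact left_eq_add.1 h

theorem Mackey.res_zero (M : Mackey G) {X Y : GSet G} (f : GMap X Y) : M.res f 0 = 0 := by
  have h := M.res_add f 0 0
  rw [add_zero] at h
  exact left_eq_add.1 h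

theorem Mackey.tr_nsmul (M : Mackey G) {X Y : GSet G} (f : GMap X Y) (n : ℕ) (a : M.obj X) :
    M.tr f (n • a) = n • M.tr f a := by
  induction n with
  | zero => rw [zero_smul, zero_smul, M.tr_zero]
  | succ n ih => rw [succ_nsmul, succ_nsmul, M.tr_add, ih]

theorem Mackey.res_nsmul (M : Mackey G) {X Y : GSet G} (f : GMap X Y) (n : ℕ) (a : M.obj Y) :
    M.res f (n • a) = n • M.res f a := by
  induction n with
  | zero => rw [zero_smul, zero_smul, M.res_zero]
  | succ n ih => rw [succ_nsmul, succ_nsmul, M.res_add, ih]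

/-- the induced map of the box products: multiplication by an integer -/
def mulMackey (M : Mackey G) (n : ℕ) : MackeyHom M M where
  app X m := n • m
  app_add := fun X a b => smul_add n a b
  app_res := fun f a => (M.res_nsmul f n a).symm
  app_tr := fun f a => (M.tr_nsmul f n a).symm

/-- multiplication by an integer -/
def mulHom (M : GMod R) (n : ℕ) : GModHom M M where
  toMackeyHom := mulMackey M.toMackey n
  app_smul := fun X r m => smul_comm n r m

theorem not_flat {M : GMod R} {n : ℕ} (hn : ∀ (X : GSet G) (r : R.obj X), n • r = 0 →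
    r = 0) {X : GSet G} {m : M.obj X} (hm : m ≠ 0) (hnm : n • m = 0) : ¬ Flat M := by
  intro h
  have h1 := h (selfMod R) (selfMod R) (mulHom (selfMod R) n) (fun X => by
    intro a b hab
    have h2 : n • (a : R.obj X) = n • (b : R.obj X) := hab
    exact sub_eq_zero.1 (hn X _ (by rw [smul_sub, h2, sub_self])))
    M.toMackey M.toMackey (actPairing M) (actPairing M)
    (isBox_act M) (isBox_act M) (mulMackey M.toMackey n) (by
      intro X m r
      change n • ((r : R.obj X) • m) = (n • (r : R.obj X)) • m
      rw [smul_assoc]) X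
  apply hm
  apply h1
  change n • m = n • (0 : M.obj X)
  rw [hnm, smul_zero]

end self

/-! ### The constant Green functor -/

section const

variable (G : Type) [Group G]

/-- invariant functions -/
def inv (X : GSet G) : Subring (X → ℤ) where
  carrier := {φ | ∀ (g : G) (x : X), φ (g • x) = φ x}
  mul_mem' := by
    intro a b ha hb g x
    change a _ * b _ = a _ * b _
    rw [ha, hb]
  one_mem' := fun _ _ => rfl
  add_mem' := by
    intro a b ha hb g x
    change a _ + b _ = a _ + b _
    rw [ha, hb]
  zero_mem' := fun _ _ => rfl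
  neg_mem' := by
    intro a ha g x
    change - a _ = - a _
    rw [ha]

variable {G}

/-- pull back of functions -/
def pull {X Y : GSet G} (f : GMap X Y) (φ : inv G Y) : inv G X :=
  ⟨fun x => φ.1 (f x), fun g x => by
    change φ.1 (f (g • x)) = φ.1 (f x)
    rw [f.equi, φ.2]⟩

open Classical in
/-- sum over the fibres -/
noncomputable def fsum {X Y : GSet G} (f : GMap X Y) (φ : X → ℤ) (y : Y) : ℤ :=
  ∑ᶠ x : {x : X // f x = y}, φ x

theorem fsum_inv {X Y : GSet G} (f : GMap X Y) (φ : X → ℤ) (hφ : ∀ (g : G) (x : X), φ (g • x) = φ x)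
    (g : G) (y : Y) : fsum f φ (g • y) = fsum f φ y := by
  unfold fsum
  let e : {x : X // f x = y} ≃ {x : X // f x = g • y} :=
    { toFun := fun x => ⟨g • x.1, by rw [f.equi, x.2]⟩
      invFun := fun x => ⟨g⁻¹ • x.1, by rw [f.equi, x.2, inv_smul_smul]⟩
      left_inv := fun x => Subtype.ext (inv_smul_smul g x.1)
      right_inv := fun x => Subtype.ext (smul_inv_smul g x.1) }
  rw [← finsum_comp_equiv e]
  apply finsum_congr
  intro x
  exact hφ g x.1

/-- push forward of functions -/
noncomputable def push {X Y : GSet G} (f : GMap X Y) (φ : inv G X) : inv G Y :=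
  ⟨fsum f φ.1, fun g y => fsum_inv f φ.1 φ.2 g y⟩

theorem push_add {X Y : GSet G} (f : GMap X Y) (a b : inv G X) :
    push f (a + b) = push f a + push f b := by
  apply Subtype.ext
  funext y
  change ∑ᶠ x : {x : X // f x = y}, (a.1 x + b.1 x) =
    (∑ᶠ x : {x : X // f x = y}, a.1 x) + ∑ᶠ x : {x : X // f x = y}, b.1 x
  exact finsum_add_distrib (Set.toFinite _) (Set.toFinite _)

theorem push_apply {X Y : GSet G} (f : GMap X Y) (φ : inv G X) (y : Y) :
    (push f φ).1 y = ∑ᶠ x : {x : X // f x = y}, φ.1 x := rfl

/-- The constant Green functor `ℤ`: `X ↦ Map_G(X, ℤ)`. -/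
@[reducible] noncomputable def constG : Green G where
  obj X := inv G X
  ring := fun X => inferInstance
  res := fun f => pull f
  tr := fun f => push f
  res_one := fun f => rfl
  res_mul := fun f a b => rfl
  res_add := fun f a b => rfl
  tr_add := fun f a b => push_add f a b
  res_id _ _ := rfl
  res_comp _ _ _ := rfl
  tr_id := fun X a => by
    apply Subtype.ext
    funext y
    rw [push_apply]
    have : Unique {x : X // (GMap.id X) x = y} :=
      ⟨⟨⟨y, rfl⟩⟩, fun x => Subtype.ext x.2⟩
    rw [finsum_unique]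
    exact congrArg a.1 (Subtype.prop (default : {x : X // (GMap.id X) x = y}))
  tr_comp := fun {X Y Z} f g a => by
    apply Subtype.ext
    funext z
    rw [push_apply, push_apply]
    simp only [push_apply]
    let e : (Σ y : {y : Y // g y = z}, {x : X // f x = y.1}) ≃ {x : X // (g.comp f) x = z} :=
      { toFun := fun p => ⟨p.2.1, by
          change g (f p.2.1) = z
          rw [p.2.2, p.1.2]⟩
        invFun := fun x => ⟨⟨f x.1, x.2⟩, ⟨x.1, rfl⟩⟩
        left_inv := by
          rintro ⟨⟨y, hy⟩, ⟨x, hx⟩⟩
          have hx' : f x = y := hx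
          subst hx'
          rfl
        right_inv := fun x => rfl }
    rw [← finsum_comp_equiv e]
    have := Fintype.ofFinite {y : Y // g y = z}
    have h2 : ∀ y : {y : Y // g y = z}, Finite {x : X // f x = y.1} := fun y => inferInstance
    have := fun y : {y : Y // g y = z} => Fintype.ofFinite {x : X // f x = y.1}
    rw [finsum_eq_sum_of_fintype, finsum_eq_sum_of_fintype]
    simp only [finsum_eq_sum_of_fintype]
    rw [Fintype.sum_sigma]
    rfl
  base_change := fun {P X Y' Y} p q f g h a => by
    apply Subtype.ext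
    funext y
    change (push f a).1 (g y) = _
    rw [push_apply, push_apply]
    have hbij : Function.Bijective (fun z : {z : P // q z = y} =>
        (⟨p z.1, by rw [h.1, z.2]⟩ : {x : X // f x = g y})) := by
      constructor
      · rintro ⟨z, hz⟩ ⟨w, hw⟩ hzw
        have h1 : p z = p w := congrArg Subtype.val hzw
        obtain ⟨u, _, hu⟩ := h.2 (p z) y (by rw [h.1, hz])
        exact Subtype.ext ((hu z ⟨rfl, hz⟩).trans (hu w ⟨h1.symm, hw⟩).symm)
      · rintro ⟨x, hx⟩
        obtain ⟨z, ⟨hz1, hz2⟩, _⟩ := h.2 x y hx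
        exact ⟨⟨z, hz2⟩, Subtype.ext hz1⟩
    rw [← finsum_comp_equiv (Equiv.ofBijective _ hbij)]
    rfl
  additive := fun {X Y Z} i j h => by
    constructor
    · intro a b hab
      apply Subtype.ext
      funext z
      obtain ⟨x | x, rfl⟩ := h.2 z
      · exact congrFun (congrArg Subtype.val (congrArg Prod.fst hab)) x
      · exact congrFun (congrArg Subtype.val (congrArg Prod.snd hab)) x
    · rintro ⟨a, b⟩
      let e := Equiv.ofBijective _ h
      have he1 : ∀ x, e.symm (i x) = Sum.inl x := fun x => by
        rw [Equiv.symm_apply_eq]; rfl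
      have he2 : ∀ x, e.symm (j x) = Sum.inr x := fun x => by
        rw [Equiv.symm_apply_eq]; rfl
      refine ⟨⟨fun z => Sum.elim a.1 b.1 (e.symm z), ?_⟩, ?_⟩
      · intro g z
        obtain ⟨x | x, rfl⟩ := h.2 z
        · change Sum.elim a.1 b.1 (e.symm (g • i x)) = Sum.elim a.1 b.1 (e.symm (i x))
          rw [← i.equi, he1, he1]
          exact a.2 g x
        · change Sum.elim a.1 b.1 (e.symm (g • j x)) = Sum.elim a.1 b.1 (e.symm (j x))
          rw [← j.equi, he2, he2]
          exact b.2 g x
      · refine Prod.ext ?_ ?_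
        · apply Subtype.ext
          funext x
          change Sum.elim a.1 b.1 (e.symm (i x)) = a.1 x
          rw [he1]; rfl
        · apply Subtype.ext
          funext x
          change Sum.elim a.1 b.1 (e.symm (j x)) = b.1 x
          rw [he2]; rfl
  frobenius := fun {X Y} f a b => by
    apply Subtype.ext
    funext y
    rw [push_apply]
    change _ = (push f a).1 y * b.1 y
    rw [push_apply, finsum_mul]
    apply finsum_congr
    rintro ⟨x, rfl⟩
    rfl

end const

/-- For every finite group `G` and every proper subgroup `H` there are a commutative Green functor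
`R` for `G` and an element `b ∈ R(G/H)` such that the localization `R[b⁻¹]` is not a flat
`R`-module. -/
theorem result (G : Type) [Group G] [Finite G] (H : Subgroup G) (hH : H ≠ ⊤) :
    ∃ (R : Green G) (b : R.obj (orb H)) (S : Green G) (φ : GreenHom R S),
      IsLocalizationAt b φ ∧ ¬ Flat (GMod.ofHom φ) := by
  refine ⟨constG, 0, QG constG (orb H), qmap constG (orb H), loc_zero constG (orb H), ?_⟩
  let pt : GSet G := ⟨PUnit.{1}⟩
  have hidx : 1 < H.index := by
    rcases Nat.lt_or_ge 1 H.index with h | h
    · exact h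
    · exfalso
      have h0 : H.index ≠ 0 := Subgroup.index_ne_zero_of_finite
      exact hH (Subgroup.index_eq_one.1 (by omega))
  have hcard : ∀ (c : ℤ), (∑ᶠ _ : {x : pd (orb H) pt // pr (orb H) pt x = PUnit.unit}, c) =
      H.index * c := by
    intro c
    have e : {x : pd (orb H) pt // pr (orb H) pt x = PUnit.unit} ≃ (G ⧸ H) :=
      { toFun := fun x => x.1.1
        invFun := fun x => ⟨(x, PUnit.unit), rfl⟩
        left_inv := fun x => rfl
        right_inv := fun x => rfl }
    rw [← finsum_comp_equiv e.symm]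
    have := Fintype.ofFinite (G ⧸ H)
    rw [finsum_eq_sum_of_fintype, Finset.sum_const, Finset.card_univ, nsmul_eq_mul,
      ← Nat.card_eq_fintype_card]
    rfl
  refine not_flat (n := H.index) (X := pt) (m := (Ideal.Quotient.mk (tI constG (orb H) pt) 1 :
    (QG constG (orb H)).obj pt)) ?_ ?_ ?_
  · intro X r hr
    apply Subtype.ext
    funext x
    have h1 : ((H.index : (constG (G := G)).obj X) * r).1 x = 0 := by
      rw [← nsmul_eq_mul, hr]; rfl
    have h2 : ((H.index : (constG (G := G)).obj X) * r).1 x = (H.index : ℤ) * r.1 x := by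
      have h3 : ((H.index : (constG (G := G)).obj X)).1 x = (H.index : ℤ) := by
        change ((H.index : inv G X) : X → ℤ) x = _
        rw [Subring.coe_natCast, Pi.natCast_apply]
      change ((H.index : (constG (G := G)).obj X)).1 x * r.1 x = _
      rw [h3]
    rw [h2] at h1
    exact (mul_eq_zero.1 h1).resolve_left (by exact_mod_cast (by omega : H.index ≠ 0))
  · intro h
    have h1 : (1 : (constG (G := G)).obj pt) ∈ tI constG (orb H) pt :=
      Ideal.Quotient.eq_zero_iff_mem.1 h
    obtain ⟨s, hs⟩ := h1
    have h2 := congrFun (congrArg Subtype.val hs) PUnit.unit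
    change (push (pr (orb H) pt) s).1 PUnit.unit = 1 at h2
    rw [push_apply] at h2
    -- `s` is constant
    have h3 : ∀ x : {x : pd (orb H) pt // pr (orb H) pt x = PUnit.unit},
        s.1 x = s.1 ((QuotientGroup.mk 1 : G ⧸ H), PUnit.unit) := by
      rintro ⟨⟨x, y⟩, hx⟩
      obtain ⟨g, rfl⟩ := QuotientGroup.mk_surjective x
      have h4 := s.2 g ((QuotientGroup.mk 1 : G ⧸ H), PUnit.unit)
      rw [← h4]
      have h5 : (QuotientGroup.mk g : G ⧸ H) = g • (QuotientGroup.mk 1 : G ⧸ H) := by
        rw [MulAction.Quotient.smul_mk, smul_eq_mul, mul_one]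
      exact congrArg s.1 (Prod.ext h5 rfl)
    rw [finsum_congr h3, hcard] at h2
    have h5 : (H.index : ℤ) ∣ 1 := Dvd.intro _ h2
    have h6 : H.index ∣ 1 := by exact_mod_cast h5
    have := Nat.le_of_dvd one_pos h6
    omega
  · -- `n` is a transfer
    have h1 : (H.index : (constG (G := G)).obj pt) ∈ tI constG (orb H) pt := by
      refine ⟨1, ?_⟩
      apply Subtype.ext
      funext y
      change (push (pr (orb H) pt) 1).1 y = _
      rw [push_apply]
      have h2 := hcard 1
      rw [mul_one] at h2
      change (∑ᶠ _ : {x : pd (orb H) pt // pr (orb H) pt x = PUnit.unit}, (1 : ℤ)) = _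
      rw [h2]
      change _ = ((H.index : inv G pt) : pt → ℤ) y
      rw [Subring.coe_natCast, Pi.natCast_apply]
    change H.index • (Ideal.Quotient.mk (tI constG (orb H) pt) 1) = 0
    rw [nsmul_eq_mul, ← map_natCast (Ideal.Quotient.mk (tI constG (orb H) pt)), ← map_mul, mul_one]
    exact Ideal.Quotient.eq_zero_iff_mem.2 h1

end Pool.Agent.Results.MP_196a0c_al.LocalizationNotFlat
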